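import Pool.Agent.Q120.TL.Main2
import Pool.Agent.Q111.GE.LAW
import Pool.Agent.Q47.TL.TLA
import Pool.Agent.Q47.TL.TLC
import Pool.Agent.Q47.TL.MIXC
import Pool.Agent.Q47.TL.TLB
import Pool.Agent.Q47.TL.TLD
import Pool.Agent.Q47.TL.MIXD

/-!
# The k-tuples conjecture for all random sets near Cramér's model

`A` is any random set of integers; the distance is the relative entropy `relEntropy μ A (low (k + 1))` (nats) of the law of
`A ∩ [3, 2 ^ (k + 1))` with respect to Cramér's model. `AllD d E`: all random sets at distance at most `d k`, `k` large, almost surely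
have the property `E`. `AllLow δ E`, `SomeLow δ E`: all, some random sets at distance at most `2 ^ ((δ + o(1)) k)`.
-/

set_option autoImplicit false

namespace Pool.Agent.Results.MP_43e117_nt.TuplesInAllRandomSets

open Filter Pool.Agent.Q120.TL

theorem jobs : TJobs where
  law := Pool.Agent.Q111.GE.t_LAW
  ent := Pool.Agent.Q111.GE.t_ENT
  tla := Pool.Agent.Q47.TL.t_TLA
  tlc := Pool.Agent.Q47.TL.t_TLC
  mixc := Pool.Agent.Q47.TL.t_MIXC

theorem jobs2 : TJobs2 where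
  law := Pool.Agent.Q111.GE.t_LAW
  ent := Pool.Agent.Q111.GE.t_ENT
  tlb := Pool.Agent.Q47.TL.t_TLB
  tld := Pool.Agent.Q47.TL.t_TLD
  mixd := Pool.Agent.Q47.TL.t_MIXD

/-- (1) The k-tuples conjecture: exact threshold. (2) The tuples of `h` elements: exact threshold. (3) Growing tuples with large
shifts: exact phase transition at `κ + max 1 C * δ = 1`. -/
theorem result :
    (∀ d : ℕ → ℝ, AllD d KTuples ↔ ∀ h : ℕ, ∃ᶠ k : ℕ in atTop, d k ≤ 2 ^ k / (k : ℝ) ^ h) ∧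
    (∀ h : ℕ, 1 ≤ h → ∀ d : ℕ → ℝ, AllD d (Tuples h) ↔ ∀ c : ℝ, 0 < c → ∃ᶠ k : ℕ in atTop, d k ≤ c * 2 ^ k / (k : ℝ) ^ h) ∧
    (∀ δ κ C : ℝ, 0 ≤ δ → 0 < κ → 0 < C →
      (κ + max 1 C * δ < 1 → AllLow δ (Tup κ C)) ∧ (1 < κ + max 1 C * δ → SomeLow δ (fun S => ¬ Tup κ C S))) :=
  ⟨fun d => ktuples_iff jobs2 d, fun _ hh d => tuples_iff jobs2 hh d,
    fun _ _ _ hδ hκ hC => ⟨fun h => all_tup jobs hδ hκ h, fun h => some_tup jobs hδ hκ hC h⟩⟩

end Pool.Agent.Results.MP_43e117_nt.TuplesInAllRandomSets
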